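import Pool.Agent.Helper54.UN.St

/-! # Project UN, module WLB: labels along the walls 4, 5, 6 -/

set_option autoImplicit false

noncomputable section

namespace Pool.Agent.Helper33.UNC

open Set Filter Topology Pool.Agent.Helper71.UN Pool.Agent.Helper54.UN

private lemma pos_comb {t x y : ℝ} (h0 : 0 < t) (h1 : t < 1) (hx : 0 < x) (hy : 0 < y) :
    0 < (1 - t) * x + t * y :=
  add_pos (mul_pos (sub_pos.mpr h1) hx) (mul_pos h0 hy)

private lemma wall4 (hU : StU) (k l : ℤ) (a b τ g : ℂ) (hG : Geo a b τ g) :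
    WL (lamN k l a b τ) 1 b k 1 := by
  intro t h0 h1
  have h1' : 0 < 1 - t := sub_pos.mpr h1
  have e1 : 0 < el (1 + t * (b - 1)) := by
    rw [el_comb]; exact pos_comb h0 h1 hG.ev hG.eb
  have e2 : lf 1 a (1 + t * (b - 1)) < 0 := by
    rw [lf_comb, lf_start, mul_zero, zero_add]
    exact mul_neg_of_pos_of_neg h0 hG.f5b
  have e3 : 0 < lf b om (1 + t * (b - 1)) := by
    rw [lf_comb, lf_start, mul_zero, add_zero]
    exact mul_pos h1' hG.f2v
  have e4 : 0 < lf om (-1) (1 + t * (b - 1)) := by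
    rw [lf_comb]; exact pos_comb h0 h1 hG.f6v hG.f6b
  have e5 : 0 < lf (-om) 1 (1 + t * (b - 1)) := by
    rw [lf_comb, lf_end, mul_zero, zero_add]
    exact mul_pos h0 hG.f7b
  have e6 : lf a b (1 + t * (b - 1)) < 0 := by
    rw [lf_comb, lf_end, mul_zero, add_zero]
    exact mul_neg_of_pos_of_neg h1' hG.gdv
  filter_upwards [evp continuous_el e1, evn (continuous_lf _ _) e2, evp (continuous_lf _ _) e3,
    evp (continuous_lf _ _) e4, evp (continuous_lf _ _) e5, evn (continuous_lf _ _) e6]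
    with x x1 x2 x3 x4 x5 x6
  have c1 : ¬ (0 < lf 1 a x ∧ 0 < lf a om x ∧ 0 < lf om (-1) x ∧ 0 < lf (-om) 1 x) :=
    fun h => absurd h.1 (not_lt.mpr x2.le)
  constructor
  · intro h
    have h' : 0 < lf 1 b x := h
    rw [hU k l a b τ g hG x x1]
    unfold lamU
    rw [if_neg c1, if_neg, if_pos (Or.inl x6)]
    rintro (h2 | h2 | h2 | h2) <;> linarith
  · intro h
    have h' : lf 1 b x < 0 := h
    rw [hU k l a b τ g hG x x1]
    unfold lamU
    rw [if_neg c1, if_pos (Or.inl h')]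

private lemma wall5 (hU : StU) (k l : ℤ) (a b τ g : ℂ) (hG : Geo a b τ g) :
    WL (lamN k l a b τ) 1 a 0 k := by
  intro t h0 h1
  have h1' : 0 < 1 - t := sub_pos.mpr h1
  have e1 : 0 < el (1 + t * (a - 1)) := by
    rw [el_comb]; exact pos_comb h0 h1 hG.ev hG.ea
  have e2 : 0 < lf a om (1 + t * (a - 1)) := by
    rw [lf_comb, lf_start, mul_zero, add_zero]
    exact mul_pos h1' hG.f1v
  have e3 : 0 < lf b om (1 + t * (a - 1)) := by
    rw [lf_comb]; exact pos_comb h0 h1 hG.f2v hG.f2a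
  have e4 : 0 < lf om (-1) (1 + t * (a - 1)) := by
    rw [lf_comb]; exact pos_comb h0 h1 hG.f6v hG.f6a
  have e5 : 0 < lf (-om) 1 (1 + t * (a - 1)) := by
    rw [lf_comb, lf_end, mul_zero, zero_add]
    exact mul_pos h0 hG.f7a
  have e6 : lf a b (1 + t * (a - 1)) < 0 := by
    rw [lf_comb, lf_start, mul_zero, add_zero]
    exact mul_neg_of_pos_of_neg h1' hG.gdv
  have e7 : 0 < lf 1 b (1 + t * (a - 1)) := by
    rw [lf_comb, lf_start, mul_zero, zero_add]
    exact mul_pos h0 hG.f4a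
  filter_upwards [evp continuous_el e1, evp (continuous_lf _ _) e2, evp (continuous_lf _ _) e3,
    evp (continuous_lf _ _) e4, evp (continuous_lf _ _) e5, evn (continuous_lf _ _) e6,
    evp (continuous_lf _ _) e7] with x x1 x2 x3 x4 x5 x6 x7
  constructor
  · intro h
    have h' : 0 < lf 1 a x := h
    rw [hU k l a b τ g hG x x1]
    unfold lamU
    rw [if_pos ⟨h', x2, x4, x5⟩]
  · intro h
    have h' : lf 1 a x < 0 := h
    rw [hU k l a b τ g hG x x1]
    unfold lamU
    rw [if_neg fun h2 => absurd h2.1 (not_lt.mpr h'.le), if_neg, if_pos (Or.inl x6)]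
    rintro (h2 | h2 | h2 | h2) <;> linarith

private lemma wall6 (k l : ℤ) (a b τ g : ℂ) (hG : Geo a b τ g) :
    WL (lamN k l a b τ) om (-1) 0 1 := by
  intro t h0 h1
  have h1' : 0 < 1 - t := sub_pos.mpr h1
  have hm : -(om + t * (-1 - om)) = -om + t * (1 - (-om)) := by ring
  have e1 : 0 < lf 1 a (om + t * (-1 - om)) := by
    rw [lf_comb]; exact pos_comb h0 h1 hG.f5o hG.f5n
  have e2 : 0 < lf a om (om + t * (-1 - om)) := by
    rw [lf_comb, lf_end, mul_zero, zero_add]
    exact mul_pos h0 hG.f1n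
  have e3 : 0 < lf 1 a (-(om + t * (-1 - om))) := by
    rw [hm, lf_comb, lf_start, mul_zero, add_zero]
    exact mul_pos h1' hG.f5m
  have e4 : 0 < lf a om (-(om + t * (-1 - om))) := by
    rw [hm, lf_comb]; exact pos_comb h0 h1 hG.f1m hG.f1v
  have e5 : 0 < lf om (-1) (-(om + t * (-1 - om))) := by
    rw [hm, lf_comb]; exact pos_comb h0 h1 hG.f6m hG.f6v
  have cn : ∀ p q : ℂ, Continuous fun x => lf p q (-x) := fun p q =>
    (continuous_lf p q).comp continuous_neg
  filter_upwards [evp (continuous_lf _ _) e1, evp (continuous_lf _ _) e2,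
    evp (f := fun x => lf 1 a (-x)) (cn _ _) e3, evp (f := fun x => lf a om (-x)) (cn _ _) e4,
    evp (f := fun x => lf om (-1) (-x)) (cn _ _) e5] with x x1 x2 x3 x4 x5
  constructor
  · intro h
    have h' : 0 < lf om (-1) x := h
    unfold lamN
    rw [if_pos ⟨⟨x1, x2, h'⟩, x3, x4, x5⟩]
  · intro h
    have h' : lf om (-1) x < 0 := h
    have ho : ouH b x := Or.inl (Or.inr (Or.inr h'))
    unfold lamN
    rw [if_neg, if_pos ho]
    rintro ⟨⟨-, -, h2⟩, -⟩
    linarith

theorem hWLB (hU : StU) : StWLB := fun k l a b τ g hG =>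
  ⟨wall4 hU k l a b τ g hG, wall5 hU k l a b τ g hG, wall6 k l a b τ g hG⟩

end Pool.Agent.Helper33.UNC
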